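import Pool.Agent.Lib.P0q.W1Core
import Pool.Agent.Lib.P0q.I1Weak
import Pool.Agent.Lib.P0q.I6Exist

/-!
# The random-cluster model with modified boundary-cluster weight: the conjecture fails for every `q > 4`

`P0q.rcM q qb p a b` is the measure `RC^{qb}_{q,p}` on the square `[a, b]²`, as a measure on configurations
on the edges of `ℤ²` (edges outside the square are closed); `P0q.WeakLim` is weak convergence;
`P0de.pc q` is the critical point.
-/

set_option autoImplicit false

open Finset MeasureTheory Filter Topology P0de P0q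

/-- For every `q > 4`: the free measures `RC^q` on the squares `[-n, n]²` at the critical point converge weakly
to a probability measure, the free infinite-volume measure; and there is `w > 1` such that for every boundary
weight `qb` with `√q < qb ≤ w √q` the measures `RC^{qb}` on the squares `[-n, n]²` do not converge weakly to it. -/
theorem Pool.Agent.Results.MP_0de4a2_pr.EveryQ.result (q : ℝ) (hq : 4 < q) :
    (∃ μF : Measure (Ed → Bool), IsProbabilityMeasure μF ∧
      WeakLim (fun n : ℕ => rcM q q (pc q) (-(n : ℤ)) n) μF) ∧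
    ∃ w : ℝ, 1 < w ∧ ∀ qb : ℝ, √q < qb → qb ≤ w * √q →
      ∀ μF : Measure (Ed → Bool), IsProbabilityMeasure μF →
        WeakLim (fun n : ℕ => rcM q q (pc q) (-(n : ℤ)) n) μF →
        ¬ WeakLim (fun n : ℕ => rcM q qb (pc q) (-(n : ℤ)) n) μF := by
  have hq1 : (1 : ℝ) ≤ q := by linarith
  have hq0 : (0 : ℝ) < q := by linarith
  refine ⟨exists_free hq1, ?_⟩
  obtain ⟨w, hw, h⟩ := final_core hq
  refine ⟨w, hw, ?_⟩
  intro qb h1 h2 μF hp hF hB
  have hqb : 0 < qb := lt_of_le_of_lt (Real.sqrt_nonneg q) h1
  exact h qb h1 h2 μF (core_of_lim hq1 hp ((locLim_free hq0).1 (locLim_of_weak hq0 hq0 hp hF)))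
    (locLim_of_weak hq0 hqb hp hB)
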