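import Pool.Agent.Lib.P0de4a2.Main

/-!
# The random-cluster model with modified boundary-cluster weight: the conjecture fails for large `q`
-/

set_option autoImplicit false

open Finset MeasureTheory Filter Topology P0de

namespace Pool.Agent.Results.MP_0de4a2_pr.LargeQ

/-- the configuration on all edges of `ℤ²` in which exactly the edges of `η` are open -/
def conf (η : Finset Ed) : Ed → Bool := fun e => decide (e ∈ η)

/-- The random-cluster measure `RC^{qb}_{q,p}` on the domain `[a, b]²`, as a measure on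
configurations on the edges of `ℤ²` (edges outside the domain are closed). -/
noncomputable def rc (q qb p : ℝ) (a b : ℤ) : Measure (Ed → Bool) :=
  ∑ η ∈ (inner a (b + 1)).powerset, ENNReal.ofReal (rcW q qb p a b η /
    ∑ η' ∈ (inner a (b + 1)).powerset, rcW q qb p a b η') • Measure.dirac (conf η)

/-- Weak convergence of measures on configurations (the space `Ed → Bool` is compact). -/
def WeakLim (μ : ℕ → Measure (Ed → Bool)) (ν : Measure (Ed → Bool)) : Prop :=
  ∀ f : (Ed → Bool) → ℝ, Continuous f →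
    Tendsto (fun n => ∫ ω, f ω ∂(μ n)) atTop (𝓝 (∫ ω, f ω ∂ν))

/-- the edge joining the origin to `(1, 0)` -/
def e₀ : Ed := ((0, 0), false)

/-- the function `1` if `e₀` is open, else `0` -/
def opn (ω : Ed → Bool) : ℝ := if ω e₀ = true then 1 else 0

theorem continuous_opn : Continuous opn := by
  have h : Continuous fun b : Bool => if b = true then (1 : ℝ) else 0 := continuous_of_discreteTopology
  exact h.comp (continuous_apply e₀)

theorem integral_rc {q qb : ℝ} (hq : 0 < q) (hqb : 0 < qb) (a b : ℤ) :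
    ∫ ω, opn ω ∂(rc q qb (pc q) a b) = rcP q qb (pc q) a b (fun η => e₀ ∈ η) := by
  classical
  have hZ := Z_pos hq hqb a b
  have hint : ∀ η ∈ (inner a (b + 1)).powerset, Integrable opn (ENNReal.ofReal
      (rcW q qb (pc q) a b η / ∑ η' ∈ (inner a (b + 1)).powerset, rcW q qb (pc q) a b η') •
      Measure.dirac (conf η)) := by
    intro η _
    apply Integrable.smul_measure _ ENNReal.ofReal_ne_top
    exact (integrable_dirac (by simp))
  rw [rc, integral_finsetSum_measure hint, rcP_mem]
  simp only [integral_smul_measure, integral_dirac]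
  rw [sum_filter, sum_div]
  apply sum_congr rfl
  intro η _
  have h1 : 0 ≤ rcW q qb (pc q) a b η / ∑ η' ∈ (inner a (b + 1)).powerset,
      rcW q qb (pc q) a b η' := div_nonneg (rcW_pos hq hqb a b η).le hZ.le
  rw [ENNReal.toReal_ofReal h1]
  by_cases he : e₀ ∈ η
  · simp [opn, conf, he]
  · simp [opn, conf, he]

end Pool.Agent.Results.MP_0de4a2_pr.LargeQ

open Pool.Agent.Results.MP_0de4a2_pr.LargeQ in
/-- For every sufficiently large `q` and every boundary weight `qb ∈ [√q, q^(9/16)]`, the measures
`RC^{qb}` on the squares `[-n, n]²` at the critical point do not converge to the measure prescribed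
by the conjecture (the free one if `qb > √q`, the average of the free and the wired one if
`qb = √q`); interior edges are open with probability at least `3/4` under `RC^{qb}` and at most
`1/4` under the free measure `RC^q`, uniformly in `n`. -/
theorem Pool.Agent.Results.MP_0de4a2_pr.LargeQ.result :
    ∃ q₀ : ℝ, 4 < q₀ ∧ ∀ q ≥ q₀, ∀ qb : ℝ, √q ≤ qb → qb ≤ q ^ (9 / 16 : ℝ) →
      (∀ n : ℕ, 1 ≤ n → ∀ e ∈ inner (-(n : ℤ)) (n + 1),
        (src e ∉ bdry (-n) n ∨ tgt e ∉ bdry (-n) n) →
          rcP q q (pc q) (-n) n (fun η => e ∈ η) ≤ 1 / 4 ∧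
          3 / 4 ≤ rcP q qb (pc q) (-n) n (fun η => e ∈ η)) ∧
      ∀ μF μW : Measure (Ed → Bool), IsProbabilityMeasure μF → IsProbabilityMeasure μW →
        WeakLim (fun n => rc q q (pc q) (-n) n) μF →
        WeakLim (fun n => rc q 1 (pc q) (-n) n) μW →
        ¬ WeakLim (fun n => rc q qb (pc q) (-n) n)
          (if √q < qb then μF else (1 / 2 : ENNReal) • μF + (1 / 2 : ENNReal) • μW) := by
  obtain ⟨q₁, hq₁, h1⟩ := main_wired
  obtain ⟨q₂, h2⟩ := main_free
  refine ⟨max q₁ q₂, lt_of_lt_of_le hq₁ (le_max_left _ _), ?_⟩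
  intro q hq qb hqb1 hqb2
  have hqq1 : q₁ ≤ q := (le_max_left _ _).trans hq
  have hqq2 : q₂ ≤ q := (le_max_right _ _).trans hq
  have hq0 : 0 < q := by linarith
  have hqb0 : 0 < qb := lt_of_lt_of_le (Real.sqrt_pos.2 hq0) hqb1
  refine ⟨fun n hn e he hint => ⟨h2 q hqq2 n hn e he, h1 q hqq1 qb hqb0 hqb2 n hn e he hint⟩, ?_⟩
  intro μF μW hF hW hlimF _ hlim
  have hin : ∀ n : ℕ, 1 ≤ n → e₀ ∈ inner (-(n : ℤ)) (n + 1) ∧
      (src e₀ ∉ bdry (-(n : ℤ)) n ∨ tgt e₀ ∉ bdry (-(n : ℤ)) n) := by
    intro n hn
    constructor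
    · rw [mem_inner, P0de.mem_box, P0de.mem_box]
      simp only [e₀, src, tgt, dir, cond_false, Prod.mk_add_mk]
      omega
    · left
      rw [bdry, Finset.mem_sdiff, P0de.mem_box, P0de.mem_box]
      simp only [e₀, src]
      omega
  have l1 := hlimF opn continuous_opn
  have l2 := hlim opn continuous_opn
  have b1 : ∫ ω, opn ω ∂μF ≤ 1 / 4 := by
    refine le_of_tendsto l1 ?_
    filter_upwards [eventually_ge_atTop 1] with n hn
    rw [integral_rc hq0 hq0]
    exact h2 q hqq2 n hn e₀ (hin n hn).1
  have b2 : 3 / 4 ≤ ∫ ω, opn ω ∂(if √q < qb then μF else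
      (1 / 2 : ENNReal) • μF + (1 / 2 : ENNReal) • μW) := by
    refine ge_of_tendsto l2 ?_
    filter_upwards [eventually_ge_atTop 1] with n hn
    rw [integral_rc hq0 hqb0]
    exact h1 q hqq1 qb hqb0 hqb2 n hn e₀ (hin n hn).1 (hin n hn).2
  split_ifs at b2 with hc
  · linarith
  · have hbd : ∀ ω, ‖opn ω‖ ≤ 1 := by
      intro ω
      unfold opn
      split_ifs <;> simp
    have hintg : ∀ μ : Measure (Ed → Bool), IsProbabilityMeasure μ → Integrable opn μ := by
      intro μ hμ
      exact Integrable.of_bound continuous_opn.aestronglyMeasurable 1 (Eventually.of_forall hbd)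
    have hW1 : ∫ ω, opn ω ∂μW ≤ 1 := by
      calc ∫ ω, opn ω ∂μW ≤ ∫ _, (1 : ℝ) ∂μW :=
            integral_mono (hintg μW hW) (integrable_const _)
              (fun ω => (le_abs_self _).trans (hbd ω))
        _ = 1 := by simp
    rw [integral_add_measure ((hintg μF hF).smul_measure (by simp))
      ((hintg μW hW).smul_measure (by simp)), integral_smul_measure, integral_smul_measure] at b2
    simp only [one_div, ENNReal.toReal_inv, ENNReal.toReal_ofNat, smul_eq_mul] at b2
    linarith
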